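import Pool.Agent.Stek.Final

/-!
# A mixed Steklov-Neumann problem with the same spectrum as a pure Steklov problem

The example: `M₂` is a plane domain close to the unit disk, `M₁` is a Moebius band with a small hole,
with the Steklov condition on the boundary of the hole and the Neumann condition on the boundary of
the band. A surface is presented as a compact plane domain `K` with a conformal metric
`exp (2 lam) |dz| ^ 2`, divided by an isometric involution which is trivial or without fixed points.
All the eigenvalues of both problems are simple; they are the members of a sequence
`0 = τ 0 < τ 1 < τ 2 < ...` which tends to infinity.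
-/

open Pool.Agent.Stek

namespace Pool.Agent.Results.MP_fa5acb_gt.SteklovNeumann

open Classical in
/-- There are compact connected Riemannian surfaces `M₁` and `M₂` and a splitting of the boundary of
`M₁` into a Neumann part `SN` and a Steklov part, both nonempty unions of components, such that the
mixed problem on `M₁` and the pure Steklov problem on `M₂` have the same spectrum: for every real
`σ` both eigenspaces have dimension one if `σ` is a member of the sequence `τ`, and zero
otherwise. -/
theorem result :
    ∃ (M₁ M₂ : Surf) (SN : Set ℂ) (τ : ℕ → ℝ), M₁.IsNeumannPart SN ∧
      StrictMono τ ∧ τ 0 = 0 ∧ Filter.Tendsto τ Filter.atTop Filter.atTop ∧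
      ∀ σ : ℝ, FiniteDimensional ℝ (M₁.eigen SN σ) ∧ FiniteDimensional ℝ (M₂.eigen ∅ σ) ∧
        Module.finrank ℝ (M₁.eigen SN σ) = (if σ ∈ Set.range τ then 1 else 0) ∧
        Module.finrank ℝ (M₂.eigen ∅ σ) = (if σ ∈ Set.range τ then 1 else 0) :=
  final

end Pool.Agent.Results.MP_fa5acb_gt.SteklovNeumann
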